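import Pool.Agent.L5helper57.LC.Tseitin
import Pool.Agent.L5helper57.EP.Main
import Pool.Agent.L5helper57.EP.Poly

/-!
# The bound for circuits which compute the permanent
-/

set_option autoImplicit false
set_option linter.unusedSectionVars false
set_option linter.unusedVariables false

namespace Pool.Agent.L5helper57.LC

open Finset Matrix Pool.Agent.L5helper57.EP Pool.Agent.L5helper57.ED

variable {m S N t D : ℕ}

section lifts

variable {ι : Type} {n : ℕ}

/-- the map `r` of the inputs is realised without a transpose -/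
def La (A : (ι → ℂ) → Matrix (Fin n) (Fin n) ℂ) (r : Equiv.Perm ι) : Prop :=
  ∃ P Q : Matrix (Fin n) (Fin n) ℂ, ∀ x, A x = P * A (fun i => x (r i)) * Q

/-- the map `r` of the inputs is realised, possibly with a transpose -/
def La' (A : (ι → ℂ) → Matrix (Fin n) (Fin n) ℂ) (r : Equiv.Perm ι) : Prop :=
  ∃ P Q : Matrix (Fin n) (Fin n) ℂ, (∀ x, A x = P * A (fun i => x (r i)) * Q) ∨
    ∀ x, A x = P * (A (fun i => x (r i)))ᵀ * Q

variable {A : (ι → ℂ) → Matrix (Fin n) (Fin n) ℂ}

lemma La.one : La A 1 := ⟨1, 1, fun x => by simp only [Equiv.Perm.one_apply, one_mul, mul_one]⟩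

lemma La.mul {g h : Equiv.Perm ι} (hg : La A g) (hh : La A h) : La A (g * h) := by
  obtain ⟨P, Q, h1⟩ := hg
  obtain ⟨P', Q', h2⟩ := hh
  refine ⟨P * P', Q' * Q, fun x => ?_⟩
  have h3 := h2 (fun i => x (g i))
  simp only [Equiv.Perm.mul_apply]
  rw [h1, h3]
  simp only [mul_assoc]

lemma La'.sq {g : Equiv.Perm ι} (h : La' A g) : La A (g * g) := by
  obtain ⟨P, Q, h | h⟩ := h
  · exact La.mul ⟨P, Q, h⟩ ⟨P, Q, h⟩
  · refine ⟨P * Qᵀ, Pᵀ * Q, fun x => ?_⟩
    have h3 := h (fun i => x (g i))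
    simp only [Equiv.Perm.mul_apply]
    rw [h x, h3, Matrix.transpose_mul, Matrix.transpose_mul, Matrix.transpose_transpose]
    simp only [Matrix.mul_assoc]

/-- normalisation at a fixed point -/
lemma La.cj {κ : Type} {ev : κ → ℂ} {x0 : ι → ℂ} (h0 : IsUnit (A x0).det) {g : Equiv.Perm ι}
    (h : La A g) (hx : (fun i => x0 (g i)) = x0) :
    Cj (fun F : ι → κ => (A x0)⁻¹ * A (em ev F)) (fun F i => F (g i)) := by
  obtain ⟨P, Q, h⟩ := h
  obtain ⟨T, hT⟩ : ∃ T, T = A x0 := ⟨_, rfl⟩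
  rw [← hT] at h0 ⊢
  have hTT : T⁻¹ * T = 1 := Matrix.nonsing_inv_mul T h0
  have hTT' : T * T⁻¹ = 1 := Matrix.mul_nonsing_inv T h0
  have h2 : T = P * T * Q := by
    have := h x0
    rwa [hx, ← hT] at this
  have h3 : (T⁻¹ * P * T) * Q = 1 := by
    rw [Matrix.mul_assoc, Matrix.mul_assoc, ← Matrix.mul_assoc P, ← h2, hTT]
  have h4 : Q * (T⁻¹ * P * T) = 1 := mul_eq_one_comm.1 h3
  refine ⟨Q, T⁻¹ * P * T, h4, fun F => ?_⟩
  beta_reduce
  have h5 : T⁻¹ * A (em ev F) = (T⁻¹ * P * T) * (T⁻¹ * A (em ev (fun i => F (g i)))) * Q := by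
    rw [h (em ev F), ← em_comp]
    calc T⁻¹ * (P * A (em ev (fun i => F (g i))) * Q)
        = T⁻¹ * P * 1 * A (em ev (fun i => F (g i))) * Q := by
          rw [Matrix.mul_one]; simp only [Matrix.mul_assoc]
      _ = _ := by rw [← hTT']; simp only [Matrix.mul_assoc]
  rw [h5]
  calc T⁻¹ * A (em ev (fun i => F (g i)))
      = 1 * (T⁻¹ * A (em ev (fun i => F (g i)))) * 1 := by rw [Matrix.one_mul, Matrix.mul_one]
    _ = _ := by rw [← h4]; simp only [Matrix.mul_assoc]

end lifts

lemma respects_aut {ι : Type} {C : Circuit ι S N t D} {π : Equiv.Perm ι} (h : C.Respects π) :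
    ∃ σ, IsAut C π σ := by
  obtain ⟨σ, h1, _⟩ := h
  refine ⟨σ, fun g => ⟨(h1 g).1, ?_⟩⟩
  obtain ⟨U, U', hU, h2⟩ := (h1 g).2
  exact ⟨U, U', hU, fun a F x => h2 a F x⟩

lemma respects_la {ι : Type} {C : Circuit ι S N t D} {π : Equiv.Perm ι} (h : C.Respects π) :
    La' (outM C) π := by
  obtain ⟨σ, h1, P, Q, h2⟩ := h
  have haut : IsAut C π σ := by
    refine fun g => ⟨(h1 g).1, ?_⟩
    obtain ⟨U, U', hU, h3⟩ := (h1 g).2
    exact ⟨U, U', hU, fun a F x => h3 a F x⟩
  have hx : ∀ x : ι → ℂ, C.val (fun c => x (π c)) = fun i => C.val x (σ i) :=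
    fun x => funext fun i => val_aut haut x i
  refine ⟨P, Q, ?_⟩
  unfold outM
  rcases h2 with h2 | h2
  · left
    intro x
    rw [hx]
    exact h2 x (C.val x)
  · right
    intro x
    rw [hx]
    exact h2 x (C.val x)

/-- a property of renamings which holds for the three-cycles holds for the translations -/
lemma gen_tr' {B : Type} [Fintype B] [DecidableEq B] {v : ℕ} (f : B × K4 ↪ Fin v)
    {p : Equiv.Perm (Fin v) → Prop} (h1 : p 1)
    (hmul : ∀ a b, p a → p b → p (a * b)) (hr : ∀ β, p (via f (rhoB β)))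
    (hr' : ∀ β, p (via f (rhoB β))⁻¹) (hr2 : ∀ β, p (via f (rho2 β))) (T : B → K4) :
    p (via f (trB T)) := by
  have hs : ∀ β (k : K4), p (via f (trB (Pi.single β k))) → p (via f (trB (Pi.single β (tau k)))) := by
    intro β k hk
    rw [← tauB_single, ← conj_rho, map_mul, map_mul, map_inv]
    exact hmul _ _ (hmul _ _ (hr β) hk) (hr' β)
  have h10 : ∀ β, p (via f (trB (Pi.single β (1, 0)))) := by
    intro β
    rw [tr_eq, map_mul]
    exact hmul _ _ (hr β) (hr2 β)
  have hk : ∀ k : K4, k = 0 ∨ k = (1, 0) ∨ k = tau (1, 0) ∨ k = tau (tau (1, 0)) := by decide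
  refine Pi.single_induction (fun T => p (via f (trB T))) T ?_ ?_ ?_
  · rw [trB_zero, map_one]
    exact h1
  · intro a b ha hb
    rw [trB_add, map_mul]
    exact hmul _ _ ha hb
  · intro β k
    rcases hk k with rfl | rfl | rfl | rfl
    · rw [Pi.single_zero, trB_zero, map_one]
      exact h1
    · exact h10 β
    · exact hs _ _ (h10 β)
    · exact hs _ _ (hs _ _ (h10 β))

/-- **The output does not see the twist.** -/
theorem det_const {q W : ℕ} {π : Equiv.Perm (Fin q)} (hq : 25 ≤ q) (hπ : Exp π)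
    (f : Bl q × K4 ↪ Fin m) (C : Circuit (Fin m × Fin m) S N t D)
    (hR : 4 * D + 4 * W ≤ q / 60) (hN : S * (N * N) < 3 ^ (W + 1)) (hS : S < 3 ^ (W + 1))
    (hNN : N * N < 3 ^ (W + 1))
    (hresp : ∀ (β : Bl q) (g : Equiv.Perm (Fin m)), g.IsThreeCycle →
      (∀ i, i ∉ blk f β → g i = i) → C.Respects (dbl g))
    {x0 : Fin m × Fin m → ℂ} (h0 : (outM C x0).det ≠ 0)
    (hx0 : ∀ g : Equiv.Perm (Fin m), (fun i => x0 (dbl g i)) = x0) (b b' : Rhs q) :
    C.output (tst π f b) = C.output (tst π f b') := by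
  have hinvfix : ∀ β i, i ∉ blk f β → (via f (rhoB β))⁻¹ i = i := by
    intro β i hi
    rw [Equiv.Perm.inv_eq_iff_eq]
    exact (rho_moves f β hi).symm
  have h1 : ∀ β, C.Respects (dbl (via f (rhoB β))) := fun β =>
    hresp β _ (rho_three f β) fun i hi => rho_moves f β hi
  have h2 : ∀ β, C.Respects (dbl (via f (rhoB β))⁻¹) := fun β =>
    hresp β _ (rho_three f β).inv (hinvfix β)
  have h3 : ∀ β, C.Respects (dbl (via f (rho2 β))) := fun β =>
    hresp β _ (rho2_three f β) fun i hi => rho2_moves f β hi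
  -- automorphisms
  have haut : ∀ T, ∃ σ, IsAut C (dbl (via f (trB T))) σ :=
    gen_tr' f (p := fun g => ∃ σ, IsAut C (dbl g) σ) ⟨1, by rw [dbl_one]; exact IsAut.one⟩
      (fun a b ⟨σ, h1⟩ ⟨σ', h2⟩ => ⟨σ * σ', by rw [dbl_mul]; exact h1.mul h2⟩)
      (fun β => respects_aut (h1 β)) (fun β => respects_aut (h2 β)) (fun β => respects_aut (h3 β))
  have H : Hyp (tev π f) C (permSys π f hq hπ) (4 * D) W := by
    refine ⟨hR, hN, hS, fun T => ?_, fun β => ?_, fun β => ?_, fun p hp => ?_⟩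
    · obtain ⟨σ, hσ⟩ := haut T
      exact ⟨_, σ, hσ, fun F => rfl⟩
    · obtain ⟨σ, hσ⟩ := respects_aut (h2 β)
      exact ⟨_, σ, hσ, fun F => rfl⟩
    · obtain ⟨σ, hσ⟩ := respects_aut (h1 β)
      exact ⟨_, σ, hσ, fun F => rfl⟩
    · exact sup_base hq hπ (by omega) p hp
  -- lifts of the output
  have hthree : ∀ (β : Bl q) (g : Equiv.Perm (Fin m)), g.IsThreeCycle →
      (∀ i, i ∉ blk f β → g i = i) → La (outM C) (dbl g) := by
    intro β g hg hfix
    have h4 : C.Respects (dbl (g * g)) := by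
      have h5 : g * g = g⁻¹ := by
        have h6 := three_cycle_sq hg
        rw [← mul_left_inj g⁻¹, mul_assoc, mul_assoc, mul_inv_cancel] at h6
        have h7 : g * g * g = 1 := by rw [mul_assoc, ← h6]; simp [mul_assoc]
        exact eq_inv_of_mul_eq_one_left h7
      rw [h5]
      refine hresp β _ hg.inv fun i hi => ?_
      rw [Equiv.Perm.inv_eq_iff_eq]
      exact (hfix i hi).symm
    have h5 := (respects_la h4).sq
    rwa [← dbl_mul, three_cycle_sq hg] at h5
  have hla : ∀ T, La (outM C) (dbl (via f (trB T))) :=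
    gen_tr' f (p := fun g => La (outM C) (dbl g)) (by rw [dbl_one]; exact La.one)
      (fun a b h1 h2 => by rw [dbl_mul]; exact h1.mul h2)
      (fun β => hthree β _ (rho_three f β) fun i hi => rho_moves f β hi)
      (fun β => hthree β _ (rho_three f β).inv (hinvfix β))
      (fun β => hthree β _ (rho2_three f β) fun i hi => rho2_moves f β hi)
  have hu : IsUnit (outM C x0).det := isUnit_iff_ne_zero.2 h0
  have key := core' (Z := permSys π f hq hπ)
    (M := fun F => (outM C x0)⁻¹ * outM C (em (tev π f) F))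
    (fun T => (hla T).cj hu (hx0 _))
    (fun β => (hthree β _ (rho_three f β).inv (hinvfix β)).cj hu (hx0 _))
    (fun β => (hthree β _ (rho_three f β) fun i hi => rho_moves f β hi).cj hu (hx0 _))
    (a := max (4 * D) (2 * W)) (W := W)
    ((out_sup H).map (LinearMap.mulLeft ℂ (outM C x0)⁻¹)) (by
      show _ ≤ q / 60
      rcases le_total (4 * D) (2 * W) with h | h
      · rw [max_eq_right h]; omega
      · rw [max_eq_left h]; omega) hNN b b'
  rw [Matrix.det_mul, Matrix.det_mul] at key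
  have h9 : ((outM C x0)⁻¹).det ≠ 0 := by
    rw [Matrix.det_nonsing_inv]
    intro h
    have h10 := Ring.inverse_mul_cancel _ hu
    rw [h, zero_mul] at h10
    exact zero_ne_one h10
  exact mul_left_cancel₀ h9 key


section integers

/-- a small integer -/
def Sm (c : ℂ) : Prop := ∃ z : ℤ, |z| ≤ 4 ∧ (z : ℂ) = c

lemma sm_zero : Sm 0 := ⟨0, by norm_num, by simp⟩

lemma sm_one : Sm 1 := ⟨1, by norm_num, by simp⟩

lemma sgz_abs : ∀ a : ZMod 2, |sgz a| ≤ 1 := by decide

lemma sm_At {q : ℕ} (π : Equiv.Perm (Fin q)) (t : Fin q → ZMod 2) (r c : Fin q × K4) :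
    Sm (At π t r c) := by
  refine ⟨(if c.1 = r.1 then 1 + sgz (t r.1 + (r.2.1 + r.2.2) + (c.2.1 + c.2.2)) else 0) +
    (if c.1 = (finRotate q).symm r.1 then sgz (r.2.1 + c.2.1) else 0) +
    (if c.1 = π.symm r.1 then sgz (r.2.2 + c.2.2) else 0), ?_, ?_⟩
  · refine (abs_add_le _ _).trans ?_
    have h1 : |if c.1 = π.symm r.1 then sgz (r.2.2 + c.2.2) else 0| ≤ 1 := by
      split_ifs
      · exact sgz_abs _
      · norm_num
    have h2 : |if c.1 = (finRotate q).symm r.1 then sgz (r.2.1 + c.2.1) else 0| ≤ 1 := by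
      split_ifs
      · exact sgz_abs _
      · norm_num
    have h3 : |if c.1 = r.1 then 1 + sgz (t r.1 + (r.2.1 + r.2.2) + (c.2.1 + c.2.2)) else 0| ≤ 2 := by
      split_ifs
      · refine (abs_add_le _ _).trans ?_
        have := sgz_abs (t r.1 + (r.2.1 + r.2.2) + (c.2.1 + c.2.2))
        rw [abs_one]
        linarith
      · norm_num
    have h4 := abs_add_le (if c.1 = r.1 then 1 + sgz (t r.1 + (r.2.1 + r.2.2) + (c.2.1 + c.2.2)) else 0)
      (if c.1 = (finRotate q).symm r.1 then sgz (r.2.1 + c.2.1) else 0)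
    linarith
  · unfold At sg
    push_cast
    rfl

lemma sm_tst {q : ℕ} (π : Equiv.Perm (Fin q)) (f : Bl q × K4 ↪ Fin m) (t : Rhs q)
    (i : Fin m × Fin m) : Sm (tst π f t i) := by
  classical
  unfold tst
  rw [ext_eq, Matrix.submatrix_apply]
  rcases (dec f).symm i.1 with p | p <;> rcases (dec f).symm i.2 with p' | p'
  · rw [fromBlocks_apply₁₁]
    obtain ⟨b, k⟩ := p
    obtain ⟨b', k'⟩ := p'
    rcases b with u | v <;> rcases b' with u' | v'
    · exact sm_zero
    · exact sm_At π t _ _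
    · show Sm (if v = u' then 1 else 0)
      split_ifs
      · exact sm_one
      · exact sm_zero
    · exact sm_zero
  · exact sm_zero
  · exact sm_zero
  · rw [fromBlocks_apply₂₂, Matrix.one_apply]
    split_ifs
    · exact sm_one
    · exact sm_zero

lemma permanent_cast (x : Matrix (Fin m) (Fin m) ℤ) :
    (x.permanent : ℂ) = (x.map (Int.cast : ℤ → ℂ)).permanent := by
  unfold Matrix.permanent
  push_cast
  rfl

end integers

end Pool.Agent.L5helper57.LC
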