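import Pool.Agent.L5helper57.LC.Circ

/-!
# The values of the gates have small Fourier support
-/

set_option autoImplicit false
set_option linter.unusedSectionVars false
set_option linter.unusedVariables false

namespace Pool.Agent.L5helper57.LC

open Finset Matrix Pool.Agent.L5helper57.EP Pool.Agent.L5helper57.ED

variable {ι : Type} {S N t D : ℕ} (C : Circuit ι S N t D)

/-- the gates which are images of the gate `g` under symmetries -/
def Orb (g i : Fin S) : Prop := ∃ π σ, IsAut C π σ ∧ σ g = i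

variable {C}

lemma orb_iff {g i : Fin S} {π : Equiv.Perm ι} {σ : Equiv.Perm (Fin S)}
    (h : IsAut C π σ) : Orb C g (σ i) ↔ Orb C g i := by
  constructor
  · rintro ⟨π', σ', h1, h2⟩
    refine ⟨π⁻¹ * π', σ⁻¹ * σ', h.inv.mul h1, ?_⟩
    rw [Equiv.Perm.mul_apply, h2]
    exact σ.symm_apply_apply i
  · rintro ⟨π', σ', h1, rfl⟩
    exact ⟨π * π', σ * σ', h.mul h1, rfl⟩

lemma orb_fn {g i : Fin S} (h : Orb C g i) : C.fn i = C.fn g := by
  obtain ⟨π, σ, h1, rfl⟩ := h
  exact (h1 g).1

variable {κ : Type} (ev : κ → ℂ)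

/-- the inputs given by the names of the values -/
def em (F : ι → κ) : ι → ℂ := fun i => ev (F i)

lemma em_comp (F : ι → κ) (π : Equiv.Perm ι) : em ev (fun i => F (π i)) = fun i => em ev F (π i) :=
  rfl

section spaces

open Classical in
/-- the functions with index in the orbit -/
noncomputable def orbSp (C : Circuit ι S N t D) (g : Fin S) {I : Type} (idx : I → Fin S)
    (u : I → (ι → κ) → ℂ) : Submodule ℂ ((ι → κ) → ℂ) :=
  Submodule.span ℂ (Set.range fun p : I => fun F => if Orb C g (idx p) then u p F else 0)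

lemma orbSp_finrank (g : Fin S) {I : Type} [Fintype I] (idx : I → Fin S) (u : I → (ι → κ) → ℂ) :
    Module.finrank ℂ (orbSp C g idx u) ≤ Fintype.card I :=
  finrank_range_le_card _

lemma mem_orbSp {g : Fin S} {I : Type} {idx : I → Fin S} {u : I → (ι → κ) → ℂ} {p : I}
    (h : Orb C g (idx p)) : u p ∈ orbSp C g idx u := by
  classical
  refine Submodule.subset_span ⟨p, ?_⟩
  funext F
  exact if_pos h

/-- invariance of the space -/
lemma orbSp_inv {g : Fin S} {I : Type} {idx : I → Fin S} {u : I → (ι → κ) → ℂ}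
    (h : ∀ π σ, IsAut C π σ → ∀ p, Orb C g (idx p) →
      (fun F => u p (fun i => F (π i))) ∈ orbSp C g idx u)
    {π : Equiv.Perm ι} {σ : Equiv.Perm (Fin S)} (hπ : IsAut C π σ) :
    ∀ w ∈ orbSp C g idx u, (fun F : ι → κ => w (fun i => F (π i))) ∈ orbSp C g idx u := by
  classical
  intro w hw
  unfold orbSp at hw
  induction hw using Submodule.span_induction with
  | mem w hw =>
    obtain ⟨p, rfl⟩ := hw
    by_cases hp : Orb C g (idx p)
    · simp only [hp, if_true]
      exact h π σ hπ p hp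
    · simp only [hp, if_false]
      exact (orbSp C g idx u).zero_mem
  | zero => exact (orbSp C g idx u).zero_mem
  | add a b _ _ ha hb => exact (orbSp C g idx u).add_mem ha hb
  | smul c a _ ha => exact (orbSp C g idx u).smul_mem c ha

end spaces

section main

variable {B : Type} [Fintype B] [DecidableEq B] {m W a0 : ℕ} {A : Act' B (ι → κ)}

/-- the hypotheses -/
structure Hyp (C : Circuit ι S N t D) (Z : Sys A m) (a0 W : ℕ) : Prop where
  hR : a0 + 4 * W ≤ Z.R
  hN : S * (N * N) < 3 ^ (W + 1)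
  hS : S < 3 ^ (W + 1)
  hτ : ∀ T, ∃ π σ, IsAut C π σ ∧ ∀ F, A.τ T F = fun i => F (π i)
  hρ : ∀ β, ∃ π σ, IsAut C π σ ∧ ∀ F, A.ρ β F = fun i => F (π i)
  hρ' : ∀ β, ∃ π σ, IsAut C π σ ∧ ∀ F, A.ρ' β F = fun i => F (π i)
  base : ∀ p : MvPolynomial ι ℂ, p.totalDegree ≤ D →
    Z.Sup a0 (fun b => MvPolynomial.eval (em ev (Z.x b)) p)

variable {ev} {Z : Sys A m}

lemma Hyp.improve (H : Hyp ev C Z a0 W) {g : Fin S} {I : Type} [Fintype I] {idx : I → Fin S}
    {u : I → (ι → κ) → ℂ} (h : ∀ π σ, IsAut C π σ → ∀ p, Orb C g (idx p) →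
      (fun F => u p (fun i => F (π i))) ∈ orbSp C g idx u)
    (hI : Fintype.card I < 3 ^ (W + 1)) {p : I} (hp : Orb C g (idx p))
    (hs : Z.Sup Z.R (fun b => u p (Z.x b))) :
    Z.Sup (2 * W) (fun b => u p (Z.x b)) := by
  have hfin : FiniteDimensional ℂ (orbSp C g idx u) := by
    unfold orbSp
    exact FiniteDimensional.span_of_finite ℂ (Set.finite_range _)
  have hInv : Inv A (orbSp C g idx u) := by
    refine ⟨fun T w hw => ?_, fun β w hw => ?_, fun β w hw => ?_⟩
    · obtain ⟨π, σ, hσ, hA⟩ := H.hτ T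
      simp only [hA]
      exact orbSp_inv h hσ w hw
    · obtain ⟨π, σ, hσ, hA⟩ := H.hρ β
      simp only [hA]
      exact orbSp_inv h hσ w hw
    · obtain ⟨π, σ, hσ, hA⟩ := H.hρ' β
      simp only [hA]
      exact orbSp_inv h hσ w hw
  exact sup_improve (Z := Z) (u := u p) hInv ((orbSp_finrank g idx u).trans_lt hI) (mem_orbSp hp) hs

/-- a family of functions with small support on the orbit -/
def Good (C : Circuit ι S N t D) (Z : Sys A m) (W : ℕ) (g : Fin S) (u : Fin S → (ι → κ) → ℂ) :
    Prop :=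
  (∀ π σ, IsAut C π σ → ∀ i, Orb C g i → ∀ F, u i (fun j => F (π j)) = u (σ i) F) ∧
    ∀ i, Orb C g i → Z.Sup (2 * W) (fun b => u i (Z.x b))

lemma Good.const (g : Fin S) (a : ℂ) : Good C Z W g (fun _ _ => a) :=
  ⟨fun _ _ _ _ _ _ => rfl, fun _ _ => sup_const a⟩

lemma Good.add {g : Fin S} {u w : Fin S → (ι → κ) → ℂ} (hu : Good C Z W g u)
    (hw : Good C Z W g w) : Good C Z W g (fun i F => u i F + w i F) :=
  ⟨fun π σ h i hi F => by beta_reduce; rw [hu.1 π σ h i hi F, hw.1 π σ h i hi F],
    fun i hi => SupP.add (hu.2 i hi) (hw.2 i hi)⟩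

lemma Good.mul (H : Hyp ev C Z a0 W) {g : Fin S} {u w : Fin S → (ι → κ) → ℂ}
    (hu : Good C Z W g u) (hw : Good C Z W g w) :
    Good C Z W g (fun i F => u i F * w i F) := by
  have h1 : ∀ π σ, IsAut C π σ → ∀ i, Orb C g i → ∀ F,
      u i (fun j => F (π j)) * w i (fun j => F (π j)) = u (σ i) F * w (σ i) F :=
    fun π σ h i hi F => by rw [hu.1 π σ h i hi F, hw.1 π σ h i hi F]
  refine ⟨h1, fun i hi => ?_⟩
  have h3 : Z.Sup Z.R (fun b => u i (Z.x b) * w i (Z.x b)) :=
    sup_mono (by have := H.hR; omega) (sup_mul (hu.2 i hi) (hw.2 i hi) (by have := H.hR; omega))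
  refine H.improve (I := Fin S) (idx := id) (u := fun i F => u i F * w i F) (g := g) ?_
    (by rw [Fintype.card_fin]; exact H.hS) (p := i) hi h3
  intro π σ h p hp
  have h2 : (fun F : ι → κ => u p (fun j => F (π j)) * w p (fun j => F (π j))) =
      fun F => u (σ p) F * w (σ p) F := funext fun F => h1 π σ h p hp F
  rw [h2]
  exact mem_orbSp (idx := id) (u := fun i F => u i F * w i F) (p := σ p) ((orb_iff h).2 hp)

lemma Good.sum {g : Fin S} {J : Type*} (s : Finset J) {u : J → Fin S → (ι → κ) → ℂ}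
    (h : ∀ a ∈ s, Good C Z W g (u a)) : Good C Z W g (fun i F => ∑ a ∈ s, u a i F) := by
  classical
  induction s using Finset.induction_on with
  | empty => simpa using Good.const g 0
  | insert a s ha ih =>
    have := (h a (mem_insert_self _ _)).add (ih fun j hj => h j (mem_insert_of_mem hj))
    simpa only [sum_insert ha] using this

lemma Good.prod (H : Hyp ev C Z a0 W) {g : Fin S} {J : Type*} (s : Finset J)
    {u : J → Fin S → (ι → κ) → ℂ} (h : ∀ a ∈ s, Good C Z W g (u a)) :
    Good C Z W g (fun i F => ∏ a ∈ s, u a i F) := by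
  classical
  induction s using Finset.induction_on with
  | empty => simpa using Good.const g 1
  | insert a s ha ih =>
    have := Good.mul H (h a (mem_insert_self _ _)) (ih fun j hj => h j (mem_insert_of_mem hj))
    simpa only [prod_insert ha] using this

lemma Good.congr {g : Fin S} {u w : Fin S → (ι → κ) → ℂ} (hu : Good C Z W g u)
    (h : ∀ i, Orb C g i → ∀ F, w i F = u i F) : Good C Z W g w := by
  refine ⟨fun π σ hπ i hi F => ?_, fun i hi => ?_⟩
  · rw [h i hi, h (σ i) ((orb_iff hπ).2 hi), hu.1 π σ hπ i hi F]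
  · have h1 : (fun b : Rhs m => w i (Z.x b)) = fun b => u i (Z.x b) :=
      funext fun b => h i hi _
    rw [h1]
    exact hu.2 i hi

/-- evaluation of an affine matrix along the instances -/
lemma eval_sup (H : Hyp ev C Z a0 W) {M : Pen ι S N} (hM : ∀ i j, (M.inp i j).totalDegree ≤ D)
    (hw : ∀ i, M.wire i ≠ 0 → Z.Sup (2 * W) (fun b => C.val (em ev (Z.x b)) i)) :
    Z.Sup (max a0 (2 * W)) (fun b => M.eval (em ev (Z.x b)) (C.val (em ev (Z.x b)))) := by
  have h1 : Z.Sup a0 (fun b => M.inp.map (MvPolynomial.eval (em ev (Z.x b)))) :=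
    supP_matrix fun i j => H.base (M.inp i j) (hM i j)
  have h2 : Z.Sup (2 * W) (fun b => ∑ i, C.val (em ev (Z.x b)) i • M.wire i) := by
    refine SupP.sum univ fun i _ => ?_
    by_cases hi : M.wire i = 0
    · rw [hi]
      simp only [smul_zero]
      exact SupP.zero
    · exact SupP.map (LinearMap.toSpanSingleton ℂ (Matrix (Fin N) (Fin N) ℂ) (M.wire i)) (hw i hi)
  exact SupP.add (sup_mono (le_max_left _ _) h1) (sup_mono (le_max_right _ _) h2)

/-- products of the matrices of the gates in an orbit -/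
lemma wd_sup (H : Hyp ev C Z a0 W) {g : Fin S}
    (h0 : ∀ i, Orb C g i → ∀ a, Z.Sup (max a0 (2 * W)) (fun b => gm C i (em ev (Z.x b)) a))
    (w : List (Fin t)) :
    ∀ i, Orb C g i → Z.Sup (2 * W) (fun b => wd (gm C i (em ev (Z.x b))) w) := by
  have hR := H.hR
  induction w with
  | nil =>
    intro i hi
    simp only [wd_nil]
    exact sup_const 1
  | cons a w ih =>
    intro i hi
    have h1 : Z.Sup (max a0 (2 * W) + 2 * W)
        (fun b => wd (gm C i (em ev (Z.x b))) (a :: w)) := by
      have := sup_mul (h0 i hi a) (ih i hi) (by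
        rcases le_total a0 (2 * W) with h | h
        · rw [max_eq_right h]; omega
        · rw [max_eq_left h]; omega)
      simpa only [wd_cons] using this
    have h2 : Z.Sup Z.R (fun b => wd (gm C i (em ev (Z.x b))) (a :: w)) :=
      sup_mono (by
        rcases le_total a0 (2 * W) with h | h
        · rw [max_eq_right h]; omega
        · rw [max_eq_left h]; omega) h1
    have h3 : ∀ x y, SupP (Z.ok (2 * W))
        (fun b => (wd (gm C i (em ev (Z.x b))) (a :: w)) x y) := by
      intro x y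
      have h4 : Z.Sup Z.R (fun b => (fun (p : Fin S × (Fin N × Fin N)) (F : ι → κ) =>
          (wd (gm C p.1 (em ev F)) (a :: w)) p.2.1 p.2.2) (i, (x, y)) (Z.x b)) :=
        SupP.entry h2 x y
      refine H.improve (I := Fin S × (Fin N × Fin N)) (idx := Prod.fst)
        (u := fun p F => (wd (gm C p.1 (em ev F)) (a :: w)) p.2.1 p.2.2) (g := g) ?_ ?_
        (p := (i, (x, y))) hi h4
      · intro π σ hπ p hp
        obtain ⟨U, U', hU, hgm⟩ := gm_aut hπ p.1
        have hU' : U' * U = 1 := mul_eq_one_comm.1 hU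
        have hmem : ∀ x y, (fun F : ι → κ => (wd (gm C (σ p.1) (em ev F)) (a :: w)) x y) ∈
            orbSp C g (I := Fin S × (Fin N × Fin N)) Prod.fst
              (fun p F => (wd (gm C p.1 (em ev F)) (a :: w)) p.2.1 p.2.2) := fun x y =>
          mem_orbSp (idx := Prod.fst) (u := fun (p : Fin S × (Fin N × Fin N)) (F : ι → κ) =>
            (wd (gm C p.1 (em ev F)) (a :: w)) p.2.1 p.2.2) (p := (σ p.1, (x, y)))
            ((orb_iff hπ).2 hp)
        have h1 : ∀ F : ι → κ, wd (gm C p.1 (em ev (fun j => F (π j)))) (a :: w) =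
            U' * wd (gm C (σ p.1) (em ev F)) (a :: w) * U := by
          intro F
          rw [wd_sim hU (hgm (em ev F)), em_comp]
          calc _ = 1 * wd (gm C p.1 (fun c => em ev F (π c))) (a :: w) * 1 := by
                rw [Matrix.one_mul, Matrix.mul_one]
            _ = _ := by rw [← hU']; simp only [Matrix.mul_assoc]
        have h2 : (fun F : ι → κ => (wd (gm C p.1 (em ev (fun j => F (π j)))) (a :: w))
            p.2.1 p.2.2) = fun F => (U' * wd (gm C (σ p.1) (em ev F)) (a :: w) * U) p.2.1 p.2.2 := by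
          funext F; rw [h1]
        rw [h2]
        exact entry_mem _ hmem U' U _ _
      · rw [Fintype.card_prod, Fintype.card_prod, Fintype.card_fin, Fintype.card_fin]
        exact H.hN
    exact supP_matrix h3

/-- the traces are good families -/
lemma trace_good (H : Hyp ev C Z a0 W) {g : Fin S}
    (h0 : ∀ i, Orb C g i → ∀ a, Z.Sup (max a0 (2 * W)) (fun b => gm C i (em ev (Z.x b)) a))
    (w : List (Fin t)) : Good C Z W g (fun i F => trace (wd (gm C i (em ev F)) w)) := by
  refine ⟨fun π σ hπ i hi F => ?_, fun i hi => SupP.tr (wd_sup H h0 w i hi)⟩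
  beta_reduce
  obtain ⟨U, U', hU, hgm⟩ := gm_aut hπ i
  rw [wd_sim hU (hgm (em ev F)), trace_sim hU]
  rfl

/-- the values of the gates are good families -/
lemma val_good [Fintype ι] [DecidableEq ι] [Fintype κ] (H : Hyp ev C Z a0 W) {g : Fin S}
    (h0 : ∀ i, Orb C g i → ∀ a, Z.Sup (max a0 (2 * W)) (fun b => gm C i (em ev (Z.x b)) a)) :
    Good C Z W g (fun i F => C.val (em ev F) i) := by
  classical
  -- the traces
  set tp : Fin S × (ι → κ) → (List (Fin t) → ℂ) := fun p w => trace (wd (gm C p.1 (em ev p.2)) w)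
    with htp
  set T : Finset (List (Fin t) → ℂ) := univ.image tp with hT
  -- a word where two families of traces are different
  have hk : ∀ τ τ' : List (Fin t) → ℂ, ∃ k, τ ≠ τ' → τ k ≠ τ' k := by
    intro τ τ'
    by_cases h : τ = τ'
    · exact ⟨[], fun h' => absurd h h'⟩
    · obtain ⟨k, hk⟩ := Function.ne_iff.1 h
      exact ⟨k, fun _ => hk⟩
  choose kk hkk using hk
  have hgood : Good C Z W g (fun i F => ∑ τ ∈ T, C.fn g τ * ∏ τ' ∈ T.erase τ,
      ((τ (kk τ τ') - τ' (kk τ τ'))⁻¹ *
        (trace (wd (gm C i (em ev F)) (kk τ τ')) + -τ' (kk τ τ')))) := by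
    refine Good.sum T fun τ _ => ?_
    refine Good.mul H (Good.const g _) (Good.prod H _ fun τ' _ => ?_)
    exact Good.mul H (Good.const g _) (Good.add (trace_good H h0 _) (Good.const g _))
  refine hgood.congr fun i hi F => ?_
  have hmem : tp (i, F) ∈ T := mem_image_of_mem _ (mem_univ _)
  rw [sum_eq_single (tp (i, F))]
  · rw [prod_eq_one, mul_one, val_eq, orb_fn hi]
    intro τ' hτ'
    have hne : tp (i, F) ≠ τ' := (ne_of_mem_erase hτ').symm
    have h1 := hkk _ _ hne
    show (tp (i, F) (kk (tp (i, F)) τ') - τ' (kk (tp (i, F)) τ'))⁻¹ *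
      (tp (i, F) (kk (tp (i, F)) τ') + -τ' (kk (tp (i, F)) τ')) = 1
    rw [← sub_eq_add_neg]
    exact inv_mul_cancel₀ (sub_ne_zero.2 h1)
  · intro τ hτ hne
    rw [prod_eq_zero (mem_erase.2 ⟨hne.symm, hmem⟩), mul_zero]
    show (τ (kk τ (tp (i, F))) - tp (i, F) (kk τ (tp (i, F))))⁻¹ *
      (tp (i, F) (kk τ (tp (i, F))) + -tp (i, F) (kk τ (tp (i, F)))) = 0
    rw [add_neg_cancel, mul_zero]
  · intro h; exact absurd hmem h

/-- **The values of all gates have small Fourier support.** -/
theorem val_sup [Fintype ι] [DecidableEq ι] [Fintype κ] (H : Hyp ev C Z a0 W) (g : Fin S) :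
    ∀ π σ, IsAut C π σ → Z.Sup (2 * W) (fun b => C.val (em ev (Z.x b)) (σ g)) := by
  induction g using WellFoundedLT.induction with
  | ind g ih =>
    intro π σ hπ
    have h0 : ∀ i, Orb C g i → ∀ a,
        Z.Sup (max a0 (2 * W)) (fun b => gm C i (em ev (Z.x b)) a) := by
      rintro i ⟨π', σ', hπ', rfl⟩ a
      refine eval_sup H (C.deg _ a) fun j hj => ?_
      obtain ⟨l, hl, rfl⟩ := wire_aut hπ' hj
      exact ih l hl π' σ' hπ'
    exact (val_good H h0).2 (σ g) ⟨π, σ, hπ, rfl⟩

/-- the family of matrices of the output -/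
noncomputable def outM (C : Circuit ι S N t D) (x : ι → ℂ) : Matrix (Fin N) (Fin N) ℂ :=
  C.out.eval x (C.val x)

/-- the matrix of the output has small Fourier support -/
theorem out_sup [Fintype ι] [DecidableEq ι] [Fintype κ] (H : Hyp ev C Z a0 W) :
    Z.Sup (max a0 (2 * W)) (fun b => outM C (em ev (Z.x b))) :=
  eval_sup H C.outDeg fun i _ => val_sup H i 1 1 IsAut.one

end main

end Pool.Agent.L5helper57.LC
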