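import Pool.Agent.L5helper57.LC.ModP

/-!
# The bound for circuits which determine the permanent
-/

set_option autoImplicit false
set_option linter.unusedSectionVars false
set_option linter.unusedVariables false

namespace Pool.Agent.L5helper57.LC

open Finset Matrix Pool.Agent.L5helper57.EP Pool.Agent.L5helper57.ED

/-- **The bound.** -/
theorem circuit_bound (p : ℕ) (hp : p = 0 ∨ p.Prime ∧ 5 ≤ p) (m s S N t D : ℕ)
    (B : Fin s → Finset (Fin m)) (hB : ∀ j, (B j).card = 4)
    (hdisj : ∀ i j, i ≠ j → Disjoint (B i) (B j)) (C : Circuit (Fin m × Fin m) S N t D)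
    (hresp : ∀ j (g : Equiv.Perm (Fin m)), g.IsThreeCycle → (∀ i, i ∉ B j → g i = i) →
      C.Respects (g.prodCongr g))
    (hC : ∀ x y : Matrix (Fin m) (Fin m) ℤ, (∀ i j, |x i j| ≤ 4 ∧ |y i j| ≤ 4) →
      ¬ x.permanent ≡ y.permanent [ZMOD p] →
      C.output (fun i => (x i.1 i.2 : ℂ)) ≠ C.output (fun i => (y i.1 i.2 : ℂ))) :
    (s : ℝ) < 1000 * (1 + D + Real.logb 2 ((S + 1) * N)) := by
  by_contra hcon
  push Not at hcon
  have hD0 : (0 : ℝ) ≤ D := Nat.cast_nonneg D
  have hcast : ((S : ℝ) + 1) * N = (((S + 1) * N : ℕ) : ℝ) := by push_cast; ring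
  rw [hcast] at hcon
  set n : ℕ := (S + 1) * N with hn
  have hlog : 0 ≤ Real.logb 2 (n : ℝ) ∧ (Nat.log 2 n : ℝ) ≤ Real.logb 2 (n : ℝ) := by
    rcases Nat.eq_zero_or_pos n with h | h
    · rw [h]; simp
    · have h1 : (1 : ℝ) ≤ n := by exact_mod_cast h
      refine ⟨Real.logb_nonneg (by norm_num) h1, ?_⟩
      rw [Real.le_logb_iff_rpow_le (by norm_num) (by linarith), Real.rpow_natCast]
      exact_mod_cast Nat.pow_log_le_self 2 (by omega)
  obtain ⟨hl0, hl⟩ := hlog
  have hs : 1000 * (1 + D + Nat.log 2 n) ≤ s := by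
    have : ((1000 * (1 + D + Nat.log 2 n) : ℕ) : ℝ) ≤ s := by
      push_cast
      linarith
    exact_mod_cast this
  clear hcon hl hl0 hcast hD0
  have hm4 : 4 ≤ m := by
    have h1 := card_le_univ (B ⟨0, by omega⟩)
    rwa [hB, Fintype.card_fin] at h1
  have hm1 : Nonempty (Fin m) := ⟨⟨0, by omega⟩⟩
  -- the identity matrix and the zero matrix
  have hperm0 : (0 : Matrix (Fin m) (Fin m) ℤ).permanent = 0 := by
    unfold Matrix.permanent
    exact sum_eq_zero fun σ _ => prod_eq_zero (mem_univ (Classical.arbitrary (Fin m))) rfl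
  have h01 := hC 0 1 (fun i j => by
    rw [Matrix.one_apply, Matrix.zero_apply]
    split_ifs <;> norm_num) (by
    rw [hperm0, Matrix.permanent_one]
    intro h
    have h1 := h.dvd
    rw [sub_zero] at h1
    rcases hp with rfl | ⟨hp, hp5⟩
    · simp at h1
    · have h2 := Int.le_of_dvd one_pos h1
      have : (5 : ℤ) ≤ p := by exact_mod_cast hp5
      omega)
  have hN1 : 1 ≤ N := by
    by_contra hN
    have hN0 : N = 0 := by omega
    subst hN0
    apply h01
    unfold Circuit.output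
    rw [Matrix.det_isEmpty, Matrix.det_isEmpty]
  obtain ⟨x0, hx0, hdet0⟩ : ∃ x0 : Fin m × Fin m → ℂ,
      (∀ g : Equiv.Perm (Fin m), (fun i => x0 (dbl g i)) = x0) ∧ (outM C x0).det ≠ 0 := by
    by_cases h0 : C.output (fun i => ((0 : Matrix (Fin m) (Fin m) ℤ) i.1 i.2 : ℂ)) = 0
    · refine ⟨(fun i => ((1 : Matrix (Fin m) (Fin m) ℤ) i.1 i.2 : ℂ)), fun g => ?_, fun h1 => ?_⟩
      · funext i
        rw [dbl_apply]
        simp only [Matrix.one_apply, g.injective.eq_iff]
      · exact h01 (h0.trans (show C.output _ = 0 from h1).symm)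
    · exact ⟨(fun i => ((0 : Matrix (Fin m) (Fin m) ℤ) i.1 i.2 : ℂ)), fun g => rfl, h0⟩
  obtain ⟨q, hq⟩ : ∃ q, q = s / 2 := ⟨_, rfl⟩
  obtain ⟨W, hWdef⟩ : ∃ W, W = 2 * Nat.log 2 n + 1 := ⟨_, rfl⟩
  have hq25 : 25 ≤ q := by omega
  have hR : 4 * D + 4 * W ≤ q / 60 := by
    rw [hWdef]
    omega
  have hW : n ^ 2 < 3 ^ (W + 1) := by
    have h1 : n < 2 ^ (Nat.log 2 n + 1) := Nat.lt_pow_succ_log_self (by norm_num) n
    have h2 : 2 ^ (Nat.log 2 n + 1) ≤ 3 ^ (Nat.log 2 n + 1) :=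
      Nat.pow_le_pow_left (by norm_num) _
    calc n ^ 2 < (3 ^ (Nat.log 2 n + 1)) ^ 2 :=
          Nat.pow_lt_pow_left (h1.trans_le h2) (by norm_num)
      _ = 3 ^ (W + 1) := by rw [hWdef, ← pow_mul]; congr 1; ring
  have hNn : N * N ≤ n ^ 2 := by
    rw [← sq]
    exact Nat.pow_le_pow_left (by rw [hn]; nlinarith) 2
  have hSN : S * (N * N) ≤ n ^ 2 := by
    rw [hn]; nlinarith [Nat.zero_le (S * N), Nat.zero_le (S * S * (N * N))]
  have hSn : S ≤ n ^ 2 := by
    have h1 : S ≤ n := by rw [hn]; nlinarith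
    nlinarith
  -- the embedding of the blocks
  have hle : q + q ≤ s := by omega
  obtain ⟨f0, hf0⟩ := exists_emb (fun j : Fin (q + q) => B (Fin.castLE hle j)) (fun j => hB _)
    (fun i j hij => hdisj _ _ fun h => hij (Fin.castLE_injective hle h))
  set f : Bl q × K4 ↪ Fin m := (blkE finSumFinEquiv.toEmbedding).trans f0 with hf
  have hblk : ∀ β, blk f β = B (Fin.castLE hle (finSumFinEquiv β)) := by
    intro β
    rw [← hf0]
    rfl
  obtain ⟨π, hπ⟩ := Helper600R2.exists_expander hq25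
  -- the test matrices
  choose Y hY using fun (t : Rhs q) (i : Fin m × Fin m) => sm_tst π f t i
  set YM : Rhs q → Matrix (Fin m) (Fin m) ℤ := fun t => Matrix.of fun i j => Y t (i, j) with hYM
  have hYperm : ∀ t, ((YM t).permanent : ℂ) = (Xt π t).permanent := by
    intro t
    rw [permanent_cast]
    have h3 : (YM t).map (Int.cast : ℤ → ℂ) = EP.ext f (Xt π t) := by
      ext i j
      exact (hY t (i, j)).2
    rw [h3, ext_permanent]
  have hYtst : ∀ t, (fun i : Fin m × Fin m => (YM t i.1 i.2 : ℂ)) = tst π f t :=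
    fun t => funext fun i => (hY t i).2
  have hcong : ∀ t t', (YM t).permanent ≡ (YM t').permanent [ZMOD p] := by
    intro t t'
    by_contra hne
    have h5 := det_const (π := π) hq25 hπ f C hR (by omega) (by omega) (by omega)
      (fun β g hg hfix => hresp _ g hg (by rwa [hblk] at hfix)) hdet0 hx0 t t'
    rw [← hYtst t, ← hYtst t'] at h5
    exact hC (YM t) (YM t') (fun i j => ⟨(hY t (i, j)).1, (hY t' (i, j)).1⟩) hne h5
  rcases hp with rfl | ⟨hp, hp5⟩
  · refine not_const π (by omega) fun t t' => ?_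
    rw [← hYperm, ← hYperm]
    have h1 := hcong t t'
    rw [Nat.cast_zero, Int.modEq_zero_iff] at h1
    rw [h1]
  · exact not_const_mod π (by omega) hp hp5 hYperm hcong

end Pool.Agent.L5helper57.LC
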