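import Pool.Agent.L5helper57.LC.Final

/-!
# Permanents modulo a prime number
-/

set_option autoImplicit false
set_option linter.unusedSectionVars false
set_option linter.unusedVariables false

namespace Pool.Agent.L5helper57.LC

open Finset Matrix Pool.Agent.L5helper57.EP Pool.Agent.L5helper57.ED

/-- permutations of the blocks -/
def blockPerms (N : ℕ) : {σ : Equiv.Perm (Fin N × K4) // ∀ i, (σ i).1 = i.1} ≃
    (Fin N → Equiv.Perm K4) where
  toFun σ u :=
    { toFun := fun k => (σ.1 (u, k)).2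
      invFun := fun k => (σ.1.symm (u, k)).2
      left_inv := fun k => by
        have h1 : (u, (σ.1 (u, k)).2) = σ.1 (u, k) := Prod.ext (σ.2 (u, k)).symm rfl
        beta_reduce
        rw [h1, Equiv.symm_apply_apply]
      right_inv := fun k => by
        have h2 : (σ.1.symm (u, k)).1 = u := by
          have := σ.2 (σ.1.symm (u, k))
          rw [Equiv.apply_symm_apply] at this
          exact this.symm
        have h1 : (u, (σ.1.symm (u, k)).2) = σ.1.symm (u, k) := Prod.ext h2.symm rfl
        beta_reduce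
        rw [h1, Equiv.apply_symm_apply] }
  invFun F := ⟨Equiv.prodCongrRight F, fun i => rfl⟩
  left_inv σ := by
    apply Subtype.ext
    ext1 i
    exact Prod.ext (σ.2 i).symm rfl
  right_inv F := by
    funext u
    ext1 k
    rfl

lemma perm_Jn (N : ℕ) : (Jn N).permanent = 24 ^ N := by
  unfold Matrix.permanent
  have h1 : ∀ σ : Equiv.Perm (Fin N × K4), ∏ i, Jn N (σ i) i =
      if ∀ i, (σ i).1 = i.1 then 1 else 0 := by
    intro σ
    unfold Jn
    by_cases h : ∀ i, (σ i).1 = i.1
    · rw [if_pos h]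
      exact prod_eq_one fun i _ => if_pos (h i)
    · rw [if_neg h]
      push Not at h
      obtain ⟨i, hi⟩ := h
      exact prod_eq_zero (mem_univ i) (if_neg hi)
  rw [sum_congr rfl fun σ _ => h1 σ, ← card_filter, ← Fintype.card_subtype,
    Fintype.card_congr (blockPerms N), Fintype.card_pi, prod_const, card_univ, Fintype.card_fin,
    Fintype.card_perm]
  congr 1

variable {N : ℕ} (π : Equiv.Perm (Fin N))

/-- the integer matrix -/
def Atz (t : Fin N → ZMod 2) : Matrix (Fin N × K4) (Fin N × K4) ℤ := fun r c =>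
  (if c.1 = r.1 then 1 + sgz (t r.1 + (r.2.1 + r.2.2) + (c.2.1 + c.2.2)) else 0) +
    (if c.1 = (finRotate N).symm r.1 then sgz (r.2.1 + c.2.1) else 0) +
    (if c.1 = π.symm r.1 then sgz (r.2.2 + c.2.2) else 0)

lemma Atz_cast (t : Fin N → ZMod 2) : ((Atz π t).permanent : ℂ) = (At π t).permanent := by
  have h1 : ∀ r c, ((Atz π t r c : ℤ) : ℂ) = At π t r c := by
    intro r c
    unfold Atz At sg
    push_cast
    rfl
  unfold Matrix.permanent
  push_cast
  simp only [h1]

lemma fourier_z : ∑ t : Fin N → ZMod 2, sgz (∑ v, t v) * (Atz π t).permanent = 128 ^ N := by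
  have h1 := fourier π
  have h2 : ((∑ t : Fin N → ZMod 2, sgz (∑ v, t v) * (Atz π t).permanent : ℤ) : ℂ) =
      ((128 ^ N : ℤ) : ℂ) := by
    push_cast
    simp only [Atz_cast]
    exact h1
  exact_mod_cast h2

lemma sum_sgz (hN : 1 ≤ N) : ∑ t : Fin N → ZMod 2, sgz (∑ v, t v) = 0 := by
  have h3 : ∑ t : Fin N → ZMod 2, sg (∑ v, t v) = 0 := by
    have h4 := (dotP (Fin N)).sum_sg 1
    have h5 : (1 : Fin N → ZMod 2) ≠ 0 := by
      intro h6
      have := congrFun h6 ⟨0, hN⟩
      exact one_ne_zero this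
    rw [if_neg h5] at h4
    simpa [dotP_b] using h4
  unfold sg at h3
  exact_mod_cast h3

/-- the permanents of the test matrices are not all congruent -/
theorem not_const_mod (hN : 1 ≤ N) {p : ℕ} (hp : p.Prime) (hp5 : 5 ≤ p)
    {z : (Fin N → ZMod 2) → ℤ} (hz : ∀ t, (z t : ℂ) = (Xt π t).permanent)
    (h : ∀ t t', z t ≡ z t' [ZMOD p]) : False := by
  have hzt : ∀ t, z t = (Atz π t).permanent * 24 ^ N := by
    intro t
    have h1 : (z t : ℂ) = (((Atz π t).permanent * 24 ^ N : ℤ) : ℂ) := by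
      rw [hz, perm_Xt]
      push_cast
      rw [Atz_cast]
      congr 1
      have h2 : ((Jn N).map (Nat.cast : ℕ → ℂ)).permanent = ((Jn N).permanent : ℂ) := by
        unfold Matrix.permanent
        push_cast
        rfl
      rw [h2, perm_Jn]
      push_cast
      rfl
    exact_mod_cast h1
  have hpz : Prime (p : ℤ) := Nat.prime_iff_prime_int.1 hp
  have h24 : ¬ (p : ℤ) ∣ 24 ^ N := by
    intro h1
    have h2 : (p : ℤ) ∣ 24 := hpz.dvd_of_dvd_pow h1
    have h3 : p ∣ 24 := by exact_mod_cast h2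
    have h4 : p ∣ 2 * 2 * 2 * 3 := h3
    rcases hp.dvd_mul.1 h4 with h5 | h5
    · have h6 : p ∣ 2 := by
        rcases hp.dvd_mul.1 h5 with h6 | h6
        · rcases hp.dvd_mul.1 h6 with h7 | h7 <;> exact h7
        · exact h6
      have := Nat.le_of_dvd (by norm_num) h6
      omega
    · have := Nat.le_of_dvd (by norm_num) h5
      omega
  have h1 : ∀ t, (p : ℤ) ∣ (Atz π t).permanent - (Atz π 0).permanent := by
    intro t
    have h2 := (h 0 t).dvd
    rw [hzt, hzt, ← sub_mul] at h2
    exact (hpz.dvd_or_dvd h2).resolve_right h24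
  have h2 : (p : ℤ) ∣ 128 ^ N := by
    rw [← fourier_z π]
    have h3 : ∑ t : Fin N → ZMod 2, sgz (∑ v, t v) * (Atz π t).permanent =
        ∑ t : Fin N → ZMod 2, sgz (∑ v, t v) * ((Atz π t).permanent - (Atz π 0).permanent) := by
      simp only [mul_sub, sum_sub_distrib, ← Finset.sum_mul, sum_sgz hN, zero_mul, sub_zero]
    rw [h3]
    exact dvd_sum fun t _ => Dvd.dvd.mul_left (h1 t) _
  have h3 : (p : ℤ) ∣ 128 := hpz.dvd_of_dvd_pow h2
  have h4 : p ∣ 2 ^ 7 := by exact_mod_cast h3
  have h5 := Nat.le_of_dvd (by norm_num) (hp.dvd_of_dvd_pow h4)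
  omega

end Pool.Agent.L5helper57.LC
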