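import Pool.Agent.L5helper57.LC.Good
import Pool.Agent.L5helper57.EP.Test
import Pool.Agent.L5helper57.EP.Emb
import Pool.Agent.L5helper57.ED.Sat

/-!
# The test matrices for the permanent
-/

set_option autoImplicit false
set_option linter.unusedSectionVars false
set_option linter.unusedVariables false

namespace Pool.Agent.L5helper57.LC

open Finset Matrix Pool.Agent.L5helper57.EP Pool.Agent.L5helper57.ED

section action

variable {B : Type} [Fintype B] [DecidableEq B] {m : ℕ}

/-- renaming rows and columns -/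
def dbl (g : Equiv.Perm (Fin m)) : Equiv.Perm (Fin m × Fin m) := Equiv.prodCongr g g

lemma dbl_apply (g : Equiv.Perm (Fin m)) (i : Fin m × Fin m) : dbl g i = (g i.1, g i.2) := rfl

lemma dbl_one : dbl (1 : Equiv.Perm (Fin m)) = 1 := by ext i <;> rfl

lemma dbl_mul (g h : Equiv.Perm (Fin m)) : dbl (g * h) = dbl g * dbl h := by ext i <;> rfl

lemma dbl_inv (g : Equiv.Perm (Fin m)) : dbl g⁻¹ = (dbl g)⁻¹ := by ext i <;> rfl

/-- the action on matrices -/
noncomputable def permAct (f : B × K4 ↪ Fin m) (κ : Type) : Act' B (Fin m × Fin m → κ) where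
  τ T F := fun i => F (dbl (via f (trB T)) i)
  ρ β F := fun i => F (dbl (via f (rhoB β))⁻¹ i)
  ρ' β F := fun i => F (dbl (via f (rhoB β)) i)
  zero F := by
    funext c
    rw [trB_zero, map_one, dbl_one, Equiv.Perm.one_apply]
  add a b F := by
    funext c
    rw [add_comm, trB_add, map_mul, dbl_mul, Equiv.Perm.mul_apply]
  inv1 β F := by
    funext c
    beta_reduce
    rw [← Equiv.Perm.mul_apply, ← dbl_mul, mul_inv_cancel, dbl_one, Equiv.Perm.one_apply]
  inv2 β F := by
    funext c
    beta_reduce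
    rw [← Equiv.Perm.mul_apply, ← dbl_mul, inv_mul_cancel, dbl_one, Equiv.Perm.one_apply]
  conj β T F := by
    funext c
    beta_reduce
    rw [← Equiv.Perm.mul_apply, ← Equiv.Perm.mul_apply, ← dbl_mul, ← dbl_mul]
    congr 2
    rw [← map_inv, ← map_mul, ← map_mul]
    congr 2
    rw [← conj_rho]
    group

end action

section inst

variable {m N : ℕ} (π : Equiv.Perm (Fin N)) (f : Bl N × K4 ↪ Fin m)

/-- the entries of the test matrices -/
noncomputable def tst (t : Rhs N) (i : Fin m × Fin m) : ℂ := ext f (Xt π t) i.1 i.2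

/-- the values of the entries -/
abbrev Vals : Type := {c : ℂ // c ∈ univ.image fun p : Rhs N × (Fin m × Fin m) => tst π f p.1 p.2}

/-- the test matrices -/
noncomputable def tx (t : Rhs N) (i : Fin m × Fin m) : Vals π f :=
  ⟨tst π f t i, mem_image.2 ⟨(t, i), mem_univ _, rfl⟩⟩

/-- the values -/
def tev (c : Vals π f) : ℂ := c.1

lemma em_tx (t : Rhs N) : em (tev π f) (tx π f t) = tst π f t := rfl

lemma act_Xt (z : Fl N) (t : Rhs N) :
    act (trB (phi π z)) (Xt π t) = Xt π (fun v => t v + bdy π z v) := by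
  have h1 : act (trB (phi π z)) (Xt π t) = act (trB (phi π z)) (X0 π) +
      ∑ w, sg (t w) • act (trB (phi π z)) (Xv w) := by
    rw [Xt_eq]
    ext p q
    simp only [act, Matrix.submatrix_apply, Matrix.add_apply, Matrix.sum_apply, Matrix.smul_apply]
  rw [h1, act_X0, Xt_eq]
  congr 1
  refine sum_congr rfl fun w _ => ?_
  rw [act_Xv, smul_smul, sg_add]

lemma tst_tr (z : Fl N) (t : Rhs N) (i : Fin m × Fin m) :
    tst π f t (dbl (via f (trB (phi π z))) i) = tst π f (fun v => t v + bdy π z v) i := by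
  have h1 := act_ext f (trB (phi π z)) (Xt π t)
  rw [act_Xt] at h1
  unfold tst
  rw [← h1]
  unfold act
  rw [via_symm, trB_symm]
  rfl

lemma tx_tr (z : Fl N) (t : Rhs N) :
    (permAct f (Vals π f)).τ (phi π z) (tx π f t) = tx π f (t + bdy π z) := by
  funext i
  apply Subtype.ext
  exact tst_tr π f z t i

/-- small combinations of vertices -/
def okT (a : ℕ) (y : Rhs N) : Prop := 3 * wt y < N ∧ wt (delta π y) ≤ a

variable {π}

lemma okT_add (hπ : Exp π) {a b : ℕ} {y y' : Rhs N} (h : okT π a y) (h' : okT π b y')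
    (hab : a + b ≤ N / 60) : okT π (a + b) (y + y') := by
  have h1 : wt (delta π (y + y')) ≤ a + b := by
    rw [map_add]
    exact (wt_add_le _ _).trans (Nat.add_le_add h.2 h'.2)
  refine ⟨?_, h1⟩
  have h2 := wt_add_le y y'
  have h3 := h.1
  have h4 := h'.1
  rcases not_medium hπ (h1.trans hab) with h5 | h5
  · exact h5
  · omega

variable (π)

lemma char_eq {V : Submodule ℂ ((Fin m × Fin m → Vals π f) → ℂ)}
    (hV : Inv (permAct f (Vals π f)) V) {u : (Fin m × Fin m → Vals π f) → ℂ} (hu : u ∈ V)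
    {y : Rhs N} (hy : hat (fun b => u (tx π f b)) y ≠ 0) :
    ((orbRp _ hV).comp (phi π)).E (dotP _) (delta π y) ≠ 0 := by
  intro hE
  -- the linear functional
  set rp := (orbRp _ hV).comp (phi π) with hrp
  have hP : ∀ z (w : V), hat (fun b => (rp.P z w : (Fin m × Fin m → Vals π f) → ℂ) (tx π f b)) y =
      sg ((dotP _).b (delta π y) z) • hat (fun b => (w : (Fin m × Fin m → Vals π f) → ℂ)
        (tx π f b)) y := by
    intro z w
    have h1 : (fun b => (rp.P z w : (Fin m × Fin m → Vals π f) → ℂ) (tx π f b)) =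
        fun b => (w : (Fin m × Fin m → Vals π f) → ℂ) (tx π f (b + bdy π z)) := by
      funext b
      show (w : (Fin m × Fin m → Vals π f) → ℂ) ((permAct f (Vals π f)).τ (phi π z) (tx π f b)) = _
      rw [tx_tr]
    rw [h1]
    have h2 := hat_shift (LinearMap.id : ℂ →ₗ[ℂ] ℂ)
      (fun b => (w : (Fin m × Fin m → Vals π f) → ℂ) (tx π f (b + bdy π z)))
      (fun b => (w : (Fin m × Fin m → Vals π f) → ℂ) (tx π f b)) (bdy π z) (fun b => rfl) y
    rw [LinearMap.id_apply] at h2
    rw [h2, dot_delta]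
    congr 2
    rw [dotP_b]
    exact sum_congr rfl fun v _ => mul_comm _ _
  set ℓ : V →ₗ[ℂ] ℂ :=
    { toFun := fun w => hat (fun b => (w : (Fin m × Fin m → Vals π f) → ℂ) (tx π f b)) y
      map_add' := fun w w' => by
        exact hat_add (fun b => (w : (Fin m × Fin m → Vals π f) → ℂ) (tx π f b))
          (fun b => (w' : (Fin m × Fin m → Vals π f) → ℂ) (tx π f b)) y
      map_smul' := fun c w => by
        exact (hat_map (LinearMap.mulLeft ℂ c)
          (fun b => (w : (Fin m × Fin m → Vals π f) → ℂ) (tx π f b)) y).symm } with hℓ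
  have hℓP : ∀ z w, ℓ (rp.P z w) = sg ((dotP _).b (delta π y) z) • ℓ w := hP
  have h3 : ℓ (rp.E (dotP _) (delta π y) ⟨u, hu⟩) = ℓ ⟨u, hu⟩ := by
    unfold Rp.E
    rw [LinearMap.smul_apply, map_smul, LinearMap.sum_apply, map_sum]
    have h4 : ∀ z ∈ (univ : Finset (Fl N)), ℓ ((sg ((dotP _).b (delta π y) z) • rp.P z) ⟨u, hu⟩) =
        ℓ ⟨u, hu⟩ := by
      intro z _
      rw [LinearMap.smul_apply, map_smul, hℓP, smul_smul, sg_mul_self, one_smul]
    rw [sum_congr rfl h4, sum_const, card_univ, ← Nat.cast_smul_eq_nsmul ℂ, smul_smul,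
      inv_mul_cancel₀ (Rp.card_ne (G := Fl N)), one_smul]
  rw [hE, LinearMap.zero_apply, map_zero] at h3
  exact hy h3.symm

/-- the system of test matrices -/
noncomputable def permSys (hN : 25 ≤ N) (hπ : Exp π) : Sys (permAct f (Vals π f)) N where
  x := tx π f
  ok := okT π
  R := N / 60
  ok_zero a := by
    refine ⟨?_, ?_⟩
    · rw [wt_zero]; omega
    · rw [map_zero]
      have : wt (0 : Fl N) = 0 := by simp [wt]
      rw [this]; omega
  ok_mono h h' := ⟨h'.1, h'.2.trans h⟩
  ok_add h h' hab := okT_add hπ h h' hab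
  small V hV _ W hW u hu y hy hok := by
    refine ⟨hok.1, small_of_small π (orbRp _ hV) (k := W) (fun ψ hψ => ?_) (char_eq π f hV hu hy)⟩
    have h1 := orb_wt _ hV hψ
    have h2 := (Nat.pow_lt_pow_iff_right (by norm_num : 1 < 3)).1 (h1.trans_lt hW)
    omega
  inv u hu y hy hok := by
    have h1 : ∀ z, (dotP _).b (delta π y) z = 0 := by
      intro z
      have h2 : hat (fun b => u (tx π f b)) y =
          sg ((dotP (Fin N)).b (bdy π z) y) • hat (fun b => u (tx π f b)) y := by
        have h3 := hat_shift (LinearMap.id : ℂ →ₗ[ℂ] ℂ) (fun b => u (tx π f b))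
          (fun b => u (tx π f b)) (bdy π z) (fun b => by
            rw [LinearMap.id_apply, ← tx_tr, hu]) y
        rwa [LinearMap.id_apply] at h3
      have h4 : (dotP (Fin N)).b (bdy π z) y = (dotP _).b (delta π y) z := by
        rw [dot_delta, dotP_b]
        exact sum_congr rfl fun v _ => mul_comm _ _
      rw [h4] at h2
      rcases z2_cases ((dotP _).b (delta π y) z) with h5 | h5
      · exact h5
      · exfalso
        rw [h5, sg_one, smul_eq_mul] at h2
        apply hy
        linear_combination h2 / 2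
    have h2 : delta π y = 0 := by
      by_contra hne
      obtain ⟨z, hz⟩ := (dotP _).nondeg _ hne
      exact hz (h1 z)
    refine small_unique (π := π) (by omega) hok.1 ?_ (by rw [h2, map_zero])
    rw [wt_zero]; omega


lemma sup_sg (Z : Rhs N → Prop) (w : Fin N) (h : Z (Pi.single w 1)) :
    SupP Z (fun b : Rhs N => sg (b w)) := by
  intro y hy
  have h1 := hat_eq (G := fun b : Rhs N => sg (b w)) (C := fun y => if y = Pi.single w 1 then 1 else 0)
    (fun b => by
      simp only [smul_ite, smul_zero, sum_ite_eq', mem_univ, if_true]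
      rw [dotP_b, sum_eq_single w (fun j _ hj => by rw [Pi.single_eq_of_ne hj, mul_zero]) (by simp),
        Pi.single_eq_same, mul_one, smul_eq_mul, mul_one]) y
  rw [h1]
  refine if_neg ?_
  rintro rfl
  exact hy h

lemma wt_star (v : Fin N) : wt (delta π (Pi.single v 1)) ≤ 4 := by
  unfold wt
  have h1 : (univ.filter fun i => delta π (Pi.single v 1) i ≠ 0) ⊆
      ({Sum.inl v, Sum.inl ((finRotate N).symm v), Sum.inr v, Sum.inr (π.symm v)} :
        Finset (Fin N ⊕ Fin N)) := by
    intro i hi
    rw [mem_filter] at hi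
    have hi := hi.2
    simp only [mem_insert, mem_singleton]
    by_contra hcon
    push Not at hcon
    obtain ⟨h1, h2, h3, h4⟩ := hcon
    apply hi
    rcases i with i | i
    · have e1 : i ≠ v := fun h => h1 (by rw [h])
      have e2 : finRotate N i ≠ v := fun h => h2 (by rw [← h, Equiv.symm_apply_apply])
      rw [delta_inl, Pi.single_eq_of_ne e1, Pi.single_eq_of_ne e2, add_zero]
    · have e1 : i ≠ v := fun h => h3 (by rw [h])
      have e2 : π i ≠ v := fun h => h4 (by rw [← h, Equiv.symm_apply_apply])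
      rw [delta_inr, Pi.single_eq_of_ne e1, Pi.single_eq_of_ne e2, add_zero]
  refine (card_le_card h1).trans ?_
  refine (card_insert_le _ _).trans (Nat.add_le_add_right ?_ 1)
  refine (card_insert_le _ _).trans (Nat.add_le_add_right ?_ 1)
  refine (card_insert_le _ _).trans (Nat.add_le_add_right ?_ 1)
  rw [card_singleton]

lemma wt_single (v : Fin N) : wt (Pi.single v 1 : Rhs N) ≤ 1 := by
  unfold wt
  rw [card_le_one]
  intro a ha b hb
  simp only [mem_filter, mem_univ, true_and] at ha hb
  have ha' : a = v := by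
    by_contra hne
    exact ha (Pi.single_eq_of_ne hne _)
  have hb' : b = v := by
    by_contra hne
    exact hb (Pi.single_eq_of_ne hne _)
  rw [ha', hb']

variable {π f}

/-- one entry -/
lemma sup_entry (hN : 25 ≤ N) (hπ : Exp π) (i : Fin m × Fin m) :
    (permSys π f hN hπ).Sup 4 (fun b => em (tev π f) ((permSys π f hN hπ).x b) i) := by
  have h1 : (fun b => em (tev π f) ((permSys π f hN hπ).x b) i) = fun b : Rhs N =>
      (ext0 f + extL f (X0 π)) i.1 i.2 + ∑ w, sg (b w) * extL f (Xv w) i.1 i.2 := by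
    funext b
    show ext f (Xt π b) i.1 i.2 = _
    unfold EP.ext
    rw [Xt_eq, map_add, map_sum, Matrix.add_apply, Matrix.add_apply, Matrix.add_apply,
      Matrix.sum_apply, ← add_assoc]
    congr 1
    refine sum_congr rfl fun w _ => ?_
    rw [map_smul, Matrix.smul_apply, smul_eq_mul]
  rw [h1]
  refine SupP.add (sup_const _) (SupP.sum univ fun w _ => ?_)
  refine SupP.map (LinearMap.mulRight ℂ (extL f (Xv w) i.1 i.2)) (sup_sg _ w ?_)
  refine ⟨?_, wt_star π w⟩
  have := wt_single w
  omega

lemma sup_pow {A : Act' (Bl N) (Fin m × Fin m → Vals π f)} {Z : Sys A N} {a : ℕ} {G : Rhs N → ℂ}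
    (hG : Z.Sup a G) (k : ℕ) (h : a * k ≤ Z.R) : Z.Sup (a * k) (fun b => G b ^ k) := by
  induction k with
  | zero =>
    simp only [pow_zero]
    exact sup_const 1
  | succ k ih =>
    have h1 := sup_mul (ih ((Nat.mul_le_mul_left a (Nat.le_succ k)).trans h)) hG
      (by rw [Nat.mul_succ] at h; exact h)
    rw [Nat.mul_succ]
    simpa only [pow_succ] using h1

lemma sup_prod' {A : Act' (Bl N) (Fin m × Fin m → Vals π f)} {Z : Sys A N} {a : ℕ} {ι : Type*}
    (T : Finset ι) {G : ι → Rhs N → ℂ} (s : ι → ℕ) (hG : ∀ i ∈ T, Z.Sup a (G i))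
    (h : a * ∑ i ∈ T, s i ≤ Z.R) :
    Z.Sup (a * ∑ i ∈ T, s i) (fun b => ∏ i ∈ T, G i b ^ s i) := by
  classical
  induction T using Finset.induction_on with
  | empty =>
    simp only [prod_empty]
    exact sup_const 1
  | insert i T hi ih =>
    rw [sum_insert hi, Nat.mul_add] at h ⊢
    have h1 := sup_mul (sup_pow (hG i (mem_insert_self _ _)) (s i) (by omega))
      (ih (fun j hj => hG j (mem_insert_of_mem hj)) (by omega)) h
    simpa only [prod_insert hi] using h1

/-- polynomials of bounded degree -/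
lemma sup_base (hN : 25 ≤ N) (hπ : Exp π) {D : ℕ} (hD : 4 * D ≤ N / 60)
    (p : MvPolynomial (Fin m × Fin m) ℂ) (hp : p.totalDegree ≤ D) :
    (permSys π f hN hπ).Sup (4 * D)
      (fun b => MvPolynomial.eval (em (tev π f) ((permSys π f hN hπ).x b)) p) := by
  have h1 : (fun b => MvPolynomial.eval (em (tev π f) ((permSys π f hN hπ).x b)) p) = fun b =>
      ∑ d ∈ p.support, p.coeff d *
        ∏ i ∈ d.support, em (tev π f) ((permSys π f hN hπ).x b) i ^ d i := by
    funext b
    exact MvPolynomial.eval_eq _ _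
  rw [h1]
  refine SupP.sum _ fun d hd => ?_
  have h2 : ∑ i ∈ d.support, d i ≤ D := (MvPolynomial.le_totalDegree hd).trans hp
  refine SupP.map (LinearMap.mulLeft ℂ (p.coeff d)) ?_
  have h3 : 4 * ∑ i ∈ d.support, d i ≤ 4 * D := Nat.mul_le_mul_left 4 h2
  exact sup_mono h3 (sup_prod' d.support (fun i => d i) (fun i _ => sup_entry hN hπ i)
    (h3.trans hD))

end inst

end Pool.Agent.L5helper57.LC
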